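import Mathlib
import Pool.Agent.Lib.MP_ec260d_ntD.R.Psi

/-!
# JOB P/PhA: the function `Ph`, basic facts (about 180 lines)

All from `Psi.lean`.  For `t ≥ 2π e` `LL t ≥ 0`, `LL t + m ≥ 0`; `LL_ph`: `LL_vv`.  `ph_add`: `LL (Ph m t) = LL t + m` (and `Ph m t ≥ 2π e` since `omv ≥ 1`).  `ph_zero`: `vv_LL`.  `ph_le_iff`: `LL` is strictly increasing on `[2π e, ∞)` (in fact on `[2π, ∞)`: derivative `log (t/(2π))/(2π)`), `Ph m t` is the unique solution.
`ph_mono`: `vv_lt`.  `om_ph`: `log (Ph m t/(2π)) = omv (LL t + m)`.  `ph_deriv`: chain rule, `vv_deriv` and `LL' = log (t/(2π))/(2π)`: `(Ph m)' = 2π * (1/omv) * log (t/(2π))/(2π) = slp m t`.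
`ph_zero_slp`: `slp 0 t = 1`.  `LL_h`: for `T ≤ s ≤ t ≤ C₂ T`: `LL t - LL s = (t - s) log(ξ/(2π))/(2π)` with `ξ ∈ [s, t]` and `|log (ξ/(2π)) - log T| ≤ log (2π) + log C₂ ≤ 2 + log C₂`; multiply by `hT T = 2π/log T`.
`ph_le_C`: `LL (C₂ T) - LL (2T) ≥ C₁ T log T`: `LL (C₂ T) ≥ C₂ T/(2π) (log T - 2)`, `LL (2 T) ≤ (T/π) (log T + 1)`; with `C₂ = 4π (C₁ + 2)`... any explicit choice of `C₂` that works.
-/

namespace Pool.Agent.Lib.MP_ec260d_ntD

open Real Set
open Pool.Agent.Lib.MP_ec260d_ntB (LL hT)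

private theorem PhA_tpi : (0 : ℝ) < 2 * Real.pi := by positivity

private theorem PhA_vv_le {s s' : ℝ} (hs : 0 ≤ s) (h : s ≤ s') : Vv s ≤ Vv s' := by
  rcases h.eq_or_lt with h | h
  · rw [h]
  · exact (vv_lt hs h).le

private theorem PhA_num : 2 * Real.pi * Real.exp 1 ≤ 20 := by
  have h1 := Real.pi_lt_d2
  have h2 := Real.exp_one_lt_d9
  have h3 := Real.pi_pos
  have h4 := Real.exp_pos 1
  nlinarith

private theorem PhA_pos {t : ℝ} (ht : 2 * Real.pi * Real.exp 1 ≤ t) : 0 < t :=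
  lt_of_lt_of_le (by positivity) ht

private theorem PhA_log_ge {t : ℝ} (ht : 2 * Real.pi * Real.exp 1 ≤ t) :
    1 ≤ Real.log (t / (2 * Real.pi)) := by
  rw [Real.le_log_iff_exp_le (div_pos (PhA_pos ht) PhA_tpi), le_div_iff₀ PhA_tpi]
  linarith

private theorem PhA_LL_deriv {t : ℝ} (ht : 0 < t) :
    HasDerivAt LL (Real.log (t / (2 * Real.pi)) / (2 * Real.pi)) t := by
  have h1 : HasDerivAt (fun t : ℝ => t / (2 * Real.pi)) (1 / (2 * Real.pi)) t :=
    (hasDerivAt_id t).div_const _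
  have h0 : t / (2 * Real.pi) ≠ 0 := (div_pos ht PhA_tpi).ne'
  have h2 : HasDerivAt (fun t : ℝ => Real.log (t / (2 * Real.pi)))
      ((1 / (2 * Real.pi)) / (t / (2 * Real.pi))) t := h1.log h0
  have h3 := (h1.mul h2).sub h1
  have h4 : 1 / (2 * Real.pi) * Real.log (t / (2 * Real.pi)) +
      t / (2 * Real.pi) * ((1 / (2 * Real.pi)) / (t / (2 * Real.pi))) - 1 / (2 * Real.pi) =
      Real.log (t / (2 * Real.pi)) / (2 * Real.pi) := by
    rw [mul_div_cancel₀ _ h0]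
    ring
  rw [h4] at h3
  exact h3

theorem LL_ph {m t : ℝ} (hm : 0 ≤ m) (ht : 2 * Real.pi * Real.exp 1 ≤ t) : LL (Ph m t) = LL t + m := by
  have h := (vv_LL ht).1
  exact LL_vv (by linarith)

theorem ph_ge {m t : ℝ} (hm : 0 ≤ m) (ht : 2 * Real.pi * Real.exp 1 ≤ t) : t ≤ Ph m t := by
  obtain ⟨h1, h2, -⟩ := vv_LL ht
  have h3 : Vv (LL t) ≤ Vv (LL t + m) := PhA_vv_le h1 (by linarith)
  rw [h2, div_le_iff₀ PhA_tpi] at h3
  unfold Ph
  linarith

theorem ph_zero {t : ℝ} (ht : 2 * Real.pi * Real.exp 1 ≤ t) : Ph 0 t = t := by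
  obtain ⟨h1, h2, -⟩ := vv_LL ht
  unfold Ph
  rw [add_zero, h2, mul_div_cancel₀ _ PhA_tpi.ne']

theorem ph_add {m m' t : ℝ} (hm : 0 ≤ m) (hm' : 0 ≤ m') (ht : 2 * Real.pi * Real.exp 1 ≤ t) :
    Ph (m + m') t = Ph m' (Ph m t) := by
  have h1 : Ph m' (Ph m t) = 2 * Real.pi * Vv (LL (Ph m t) + m') := rfl
  rw [h1, LL_ph hm ht, add_assoc]
  rfl

theorem LL_lt {s t : ℝ} (hs : 2 * Real.pi * Real.exp 1 ≤ s) (h : s < t) : LL s < LL t := by
  by_contra hc
  have ht : 2 * Real.pi * Real.exp 1 ≤ t := by linarith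
  obtain ⟨h1, h2, -⟩ := vv_LL hs
  obtain ⟨h3, h4, -⟩ := vv_LL ht
  have h5 : Vv (LL t) ≤ Vv (LL s) := PhA_vv_le h3 (not_lt.1 hc)
  rw [h2, h4, div_le_div_iff_of_pos_right PhA_tpi] at h5
  linarith

private theorem PhA_LL_le {s t : ℝ} (hs : 2 * Real.pi * Real.exp 1 ≤ s) (h : s ≤ t) :
    LL s ≤ LL t := by
  rcases h.eq_or_lt with h | h
  · rw [h]
  · exact (LL_lt hs h).le

theorem ph_mono {m t t' : ℝ} (hm : 0 ≤ m) (ht : 2 * Real.pi * Real.exp 1 ≤ t) (h : t ≤ t') : Ph m t ≤ Ph m t' := by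
  have h1 := (vv_LL ht).1
  have h2 := PhA_LL_le ht h
  unfold Ph
  exact mul_le_mul_of_nonneg_left (PhA_vv_le (by linarith) (by linarith)) PhA_tpi.le

theorem ph_mono_m {m m' t : ℝ} (hm : 0 ≤ m) (ht : 2 * Real.pi * Real.exp 1 ≤ t) (h : m ≤ m') : Ph m t ≤ Ph m' t := by
  have h1 := (vv_LL ht).1
  unfold Ph
  exact mul_le_mul_of_nonneg_left (PhA_vv_le (by linarith) (by linarith)) PhA_tpi.le

theorem om_ph {m t : ℝ} (hm : 0 ≤ m) (ht : 2 * Real.pi * Real.exp 1 ≤ t) :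
    Real.log (Ph m t / (2 * Real.pi)) = omv (LL t + m) := by
  unfold Ph
  rw [mul_div_cancel_left₀ _ PhA_tpi.ne', log_vv]

theorem ph_deriv {m t : ℝ} (hm : 0 ≤ m) (ht : 2 * Real.pi * Real.exp 1 ≤ t) : HasDerivAt (Ph m) (slp m t) t := by
  have h0 := (vv_LL ht).1
  have h1 : HasDerivAt (fun t => LL t + m) (Real.log (t / (2 * Real.pi)) / (2 * Real.pi)) t :=
    (PhA_LL_deriv (PhA_pos ht)).add_const m
  have h2 : HasDerivAt Vv (1 / omv (LL t + m)) (LL t + m) := vv_deriv (by linarith)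
  have h3 := (HasDerivAt.comp t h2 h1).const_mul (2 * Real.pi)
  have h4 : 2 * Real.pi * (1 / omv (LL t + m) * (Real.log (t / (2 * Real.pi)) / (2 * Real.pi))) =
      slp m t := by
    have hp := PhA_tpi.ne'
    have ho : omv (LL t + m) ≠ 0 := by
      have := omv_ge (s := LL t + m) (by linarith)
      linarith
    unfold slp
    field_simp
  rw [h4] at h3
  exact h3

theorem slp_zero {t : ℝ} (ht : 2 * Real.pi * Real.exp 1 ≤ t) : slp 0 t = 1 := by
  obtain ⟨-, -, h3⟩ := vv_LL ht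
  have h4 := PhA_log_ge ht
  unfold slp
  rw [add_zero, h3, div_self (by linarith)]

theorem LL_h (C₂ : ℝ) (hC₂ : 1 ≤ C₂) : ∃ C T₀ : ℝ, 0 ≤ C ∧ 20 ≤ T₀ ∧ ∀ T : ℝ, T₀ ≤ T → ∀ s t : ℝ, T ≤ s → s ≤ t →
    t ≤ C₂ * T → |hT T * (LL t - LL s) - (t - s)| ≤ C / Real.log T * (t - s) := by
  have hl2 : 0 ≤ Real.log (2 * Real.pi) := Real.log_nonneg (by linarith [Real.pi_gt_three])
  have hlC : 0 ≤ Real.log C₂ := Real.log_nonneg hC₂
  refine ⟨Real.log (2 * Real.pi) + Real.log C₂, 20, by linarith, le_refl _, ?_⟩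
  intro T hT0 s t hTs hst htC
  have hTpos : 0 < T := by linarith
  have hlT : 0 < Real.log T := Real.log_pos (by linarith)
  rcases hst.eq_or_lt with h | h
  · rw [h]
    simp
  · obtain ⟨c, hc, hc2⟩ := exists_hasDerivAt_eq_slope LL
      (fun t => Real.log (t / (2 * Real.pi)) / (2 * Real.pi)) h
      (fun x hx => (PhA_LL_deriv (by linarith [hx.1])).continuousAt.continuousWithinAt)
      (fun x hx => PhA_LL_deriv (by linarith [hx.1]))
    have hcT : T ≤ c := by linarith [hc.1]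
    have hcC : c ≤ C₂ * T := by linarith [hc.2]
    have hcpos : 0 < c := by linarith
    have hts : 0 < t - s := by linarith
    rw [eq_div_iff hts.ne'] at hc2
    have h1 : hT T * (LL t - LL s) - (t - s) =
        (Real.log (c / (2 * Real.pi)) - Real.log T) / Real.log T * (t - s) := by
      have hp := PhA_tpi.ne'
      have hp2 := Real.pi_ne_zero
      rw [← hc2]
      unfold Pool.Agent.Lib.MP_ec260d_ntB.hT
      field_simp
    rw [h1, abs_mul, abs_of_pos hts, abs_div, abs_of_pos hlT]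
    refine mul_le_mul_of_nonneg_right ?_ hts.le
    refine div_le_div_of_nonneg_right ?_ hlT.le
    rw [Real.log_div hcpos.ne' PhA_tpi.ne', abs_le]
    have h2 : Real.log T ≤ Real.log c := Real.log_le_log hTpos hcT
    have h3 : Real.log c ≤ Real.log C₂ + Real.log T := by
      rw [← Real.log_mul (by linarith) hTpos.ne']
      exact Real.log_le_log hcpos hcC
    constructor <;> linarith

theorem ph_le_C (C₁ : ℝ) (hC₁ : 0 ≤ C₁) : ∃ C₂ T₀ : ℝ, 2 ≤ C₂ ∧ 20 ≤ T₀ ∧ ∀ T : ℝ, T₀ ≤ T → ∀ m t : ℝ, 0 ≤ m →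
    m ≤ C₁ * (T * Real.log T) → T ≤ t → t ≤ 2 * T → Ph m t ≤ C₂ * T := by
  have hpi := Real.pi_gt_three
  have he := Real.exp_one_gt_d9
  have hepos := Real.exp_pos 1
  have hK : 1 ≤ 1 + C₁ := by linarith
  have hbase : 2 ≤ 2 * Real.pi * Real.exp 1 := by nlinarith
  have hC2 : 2 * Real.pi * Real.exp 1 ≤ 2 * Real.pi * Real.exp 1 * (1 + C₁) := by
    nlinarith [mul_nonneg (mul_pos PhA_tpi hepos).le hC₁]
  refine ⟨2 * Real.pi * Real.exp 1 * (1 + C₁), 20, by linarith, le_refl _, ?_⟩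
  intro T hT0 m t hm hmC hTt ht2
  have hTpos : 0 < T := by linarith
  have hlT : 0 < Real.log T := Real.log_pos (by linarith)
  have hnum := PhA_num
  have hTe : 2 * Real.pi * Real.exp 1 ≤ T := by linarith
  by_contra hc
  have hc' := not_le.1 hc
  have hCT : 2 * Real.pi * Real.exp 1 ≤ 2 * Real.pi * Real.exp 1 * (1 + C₁) * T := by
    nlinarith [mul_pos PhA_tpi hepos, mul_nonneg (mul_pos PhA_tpi hepos).le hC₁]
  have h1 := LL_lt hCT hc'
  rw [LL_ph hm (by linarith)] at h1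
  have h2 : LL t ≤ LL (2 * T) := PhA_LL_le (by linarith) ht2
  -- upper bound for LL (2 T)
  have h3 : LL (2 * T) ≤ T * Real.log T := by
    unfold Pool.Agent.Lib.MP_ec260d_ntB.LL
    have h4 : 2 * T / (2 * Real.pi) = T / Real.pi := by
      field_simp
    rw [h4]
    have h5 : T / Real.pi ≤ T := div_le_self hTpos.le (by linarith)
    have h6 : 0 < T / Real.pi := by positivity
    have h7 : Real.log (T / Real.pi) ≤ Real.log T := Real.log_le_log h6 h5
    have h8 : T / Real.pi * Real.log (T / Real.pi) ≤ T / Real.pi * Real.log T :=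
      mul_le_mul_of_nonneg_left h7 h6.le
    have h9 : T / Real.pi * Real.log T ≤ T * Real.log T := mul_le_mul_of_nonneg_right h5 hlT.le
    linarith
  -- lower bound for LL (C₂ T)
  have h4 : (1 + C₁) * (T * Real.log T) ≤ LL (2 * Real.pi * Real.exp 1 * (1 + C₁) * T) := by
    unfold Pool.Agent.Lib.MP_ec260d_ntB.LL
    have h5 : 2 * Real.pi * Real.exp 1 * (1 + C₁) * T / (2 * Real.pi) =
        Real.exp 1 * (1 + C₁) * T := by
      have hp := Real.pi_ne_zero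
      field_simp
    rw [h5, Real.log_mul (by positivity) hTpos.ne', Real.log_mul hepos.ne' (by linarith),
      Real.log_exp]
    have h6 : 0 ≤ Real.log (1 + C₁) := Real.log_nonneg hK
    have h7 : 0 < (1 + C₁) * T := by positivity
    have h8 : 0 ≤ Real.exp 1 * (1 + C₁) * T * Real.log (1 + C₁) := by positivity
    have h9 : (1 + C₁) * T * Real.log T ≤ Real.exp 1 * ((1 + C₁) * T * Real.log T) := by
      have : 0 ≤ (1 + C₁) * T * Real.log T := by positivity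
      nlinarith
    nlinarith
  linarith

end Pool.Agent.Lib.MP_ec260d_ntD
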