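import Mathlib
import Pool.Agent.Lib.MP_ec260d_ntD.P.PhA

/-!
# JOB P/PhB: the slopes (about 250 lines)

Write `ω(t) = log (t/(2π))`; for `t ≥ T` large `ω(t) ≥ (log T)/2`, and `slp m t = ω(t)/ω(Ph m t)` (`om_ph`).  Everything is for `T ≤ t ≤ 2T`, `0 ≤ m ≤ C₁ T log T`; then `Ph m t ≤ C₂ T` (`ph_le_C`), and `ω(Ph m t) ≤ ω(t) + log C₂ ≤ 2 ω(t)` for large `T`: `slp_range`.
`slp_lip`: the derivative of `slp m` is `1/(t ω(Ph)) - ω(t) slp m t/(Ph m t * ω(Ph)^2)`, in absolute value `≤ 4/(T log T)`... (`≤ 1/T`); mean value theorem.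
`ph_lin`: `Ph m t - Ph m a = (t - a) slp m ξ` with `ξ` between, and `|slp m ξ - slp m a| ≤ |t - a|/T` by `slp_lip`.
`slp_diff`: `slp m t - slp m' t = ω(t) (ω(Ph m') - ω(Ph m))/(ω(Ph m) ω(Ph m'))`, `0 ≤ ω(Ph m') - ω(Ph m) = log (Ph m'/Ph m) ≤ (Ph m' - Ph m)/T` and (`ph_gap`) `Ph m' - Ph m ≤ 2 hT T (m' - m) = 4π (m' - m)/log T`.  So `|slp m t - slp m' t| ≤ 2/log T * 4π (m' - m)/(T log T)`... `≤ (m' - m)/T` for large `T`.
`ph_gap`: `LL (Ph m' t) - LL (Ph m t) = m' - m` and `LL_h` (with `C/log T ≤ 1/2`): `hT T (m' - m) = (Ph m' - Ph m)(1 + θ)`, `|θ| ≤ 1/2`, so `(2/3) hT T (m' - m) ≤ Ph m' - Ph m ≤ 2 hT T (m' - m)`.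
`u_decr`: `u(t) = Ph m' t - Ph m t` has derivative `slp m' t - slp m t = - ω(t) log (Ph m'/Ph m)/(ω ω') ≤ - log (Ph m' t/Ph m t)/(4 ω(C₂ T))...` and `log (Ph m'/Ph m) ≥ (Ph m' - Ph m)/Ph m' ≥ u/(C₂ T)`; also `ω(t)/(ω ω') ≥ 1/(2 ω') ≥ 1/(4 log T)`.  So `u' ≤ -c u/(T log T)` with `c = 1/(8 C₂)`, and `u` is decreasing; mean value theorem.
`ph_const`: for `m ≤ 2 log T` the number `u(t) = Ph m t - t` varies by at most `C hT T` on `[T, C₂ T]`: `m = LL (Ph m t) - LL t = u(t) ω(ξ)/(2π)` with `ξ ∈ [T, 2 C₂ T]`, so `u(t) = 2π m/ω(ξ)` and `|2π m/ω(ξ) - 2π m/log T| ≤ C m/(log T)^2 ≤ 2 C/log T`.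
-/

namespace Pool.Agent.Lib.MP_ec260d_ntD

open Real Set
open Pool.Agent.Lib.MP_ec260d_ntB (LL hT)

private theorem phb_log_up {a b : ℝ} (ha : 0 < a) (hab : a ≤ b) :
    Real.log (b / (2 * Real.pi)) - Real.log (a / (2 * Real.pi)) ≤ (b - a) / a := by
  have hb : 0 < b := ha.trans_le hab
  have hpi : (0 : ℝ) < 2 * Real.pi := by positivity
  rw [Real.log_div hb.ne' hpi.ne', Real.log_div ha.ne' hpi.ne']
  have h1 := Real.log_le_sub_one_of_pos (div_pos hb ha)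
  rw [Real.log_div hb.ne' ha.ne'] at h1
  have h2 : (b - a) / a = b / a - 1 := by
    rw [sub_div, div_self ha.ne']
  rw [h2]
  linarith

private theorem phb_log_lo {a b : ℝ} (ha : 0 < a) (hab : a ≤ b) :
    (b - a) / b ≤ Real.log (b / (2 * Real.pi)) - Real.log (a / (2 * Real.pi)) := by
  have hb : 0 < b := ha.trans_le hab
  have hpi : (0 : ℝ) < 2 * Real.pi := by positivity
  rw [Real.log_div hb.ne' hpi.ne', Real.log_div ha.ne' hpi.ne']
  have h1 := Real.log_le_sub_one_of_pos (div_pos ha hb)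
  rw [Real.log_div ha.ne' hb.ne'] at h1
  have h2 : (b - a) / b = 1 - a / b := by
    rw [sub_div, div_self hb.ne']
  rw [h2]
  linarith

private theorem phb_e {t : ℝ} (ht : 20 ≤ t) : 2 * Real.pi * Real.exp 1 ≤ t := by
  have h1 : Real.exp 1 < 2.7182818286 := Real.exp_one_lt_d9
  have h2 : Real.pi < 3.15 := Real.pi_lt_d2
  have h3 := Real.pi_pos
  have h4 := Real.exp_pos 1
  nlinarith

private theorem phb_slp {m t : ℝ} (hm : 0 ≤ m) (ht : 20 ≤ t) :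
    slp m t = Real.log (t / (2 * Real.pi)) / Real.log (Ph m t / (2 * Real.pi)) := by
  unfold slp
  rw [om_ph hm (phb_e ht)]

private theorem phb_2pi : 1 ≤ Real.log (2 * Real.pi) ∧ Real.log (2 * Real.pi) ≤ 2 := by
  have h1 : Real.exp 1 < 2.7182818286 := Real.exp_one_lt_d9
  have h1' : 2.7182818283 < Real.exp 1 := Real.exp_one_gt_d9
  have h2 : Real.pi < 3.15 := Real.pi_lt_d2
  have h3 : 3.14 < Real.pi := Real.pi_gt_d2
  constructor
  · rw [Real.le_log_iff_exp_le (by positivity)]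
    linarith
  · rw [Real.log_le_iff_le_exp (by positivity)]
    have h4 : Real.exp 2 = Real.exp 1 * Real.exp 1 := by
      rw [← Real.exp_add]
      norm_num
    rw [h4]
    nlinarith

/-- everything about the heights which is used below -/
private theorem phb_basic (C₁ : ℝ) (hC₁ : 0 ≤ C₁) : ∃ C₂ T₀ : ℝ, 2 ≤ C₂ ∧ 20 ≤ T₀ ∧ ∀ T : ℝ, T₀ ≤ T →
    16 ≤ Real.log T ∧ ∀ m t : ℝ, 0 ≤ m → m ≤ C₁ * (T * Real.log T) → T ≤ t → t ≤ 2 * T →
      t ≤ Ph m t ∧ Ph m t ≤ C₂ * T ∧ Real.log T / 2 ≤ Real.log (t / (2 * Real.pi)) ∧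
      Real.log (t / (2 * Real.pi)) ≤ Real.log (Ph m t / (2 * Real.pi)) ∧
      Real.log (Ph m t / (2 * Real.pi)) ≤ 2 * Real.log (t / (2 * Real.pi)) ∧
      Real.log (Ph m t / (2 * Real.pi)) ≤ 2 * Real.log T := by
  obtain ⟨C₂, T₁, hC₂, hT₁, h⟩ := ph_le_C C₁ hC₁
  refine ⟨C₂, max T₁ (Real.exp (16 + Real.log C₂)), hC₂, hT₁.trans (le_max_left _ _), fun T hTT => ?_⟩
  have h1 : T₁ ≤ T := (le_max_left _ _).trans hTT
  have h2 : Real.exp (16 + Real.log C₂) ≤ T := (le_max_right _ _).trans hTT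
  have hT0 : 20 ≤ T := hT₁.trans h1
  have h3 : 16 + Real.log C₂ ≤ Real.log T := (Real.le_log_iff_exp_le (by linarith)).2 h2
  have h4 : 0 ≤ Real.log C₂ := Real.log_nonneg (by linarith)
  obtain ⟨h5, h6⟩ := phb_2pi
  refine ⟨by linarith, fun m t hm hm1 ht ht1 => ?_⟩
  have ht0 : 0 < t := by linarith
  have hpi : (0 : ℝ) < 2 * Real.pi := by positivity
  have h7 := ph_ge hm (phb_e (hT0.trans ht))
  have h8 := h T h1 m t hm hm1 ht ht1
  have hP0 : 0 < Ph m t := ht0.trans_le h7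
  have h9 : Real.log T ≤ Real.log t := Real.log_le_log (by linarith) ht
  have h10 : Real.log t ≤ Real.log (Ph m t) := Real.log_le_log ht0 h7
  have h11 : Real.log (Ph m t) ≤ Real.log C₂ + Real.log T := by
    rw [← Real.log_mul (by linarith) (by linarith)]
    exact Real.log_le_log hP0 h8
  rw [Real.log_div ht0.ne' hpi.ne', Real.log_div hP0.ne' hpi.ne']
  exact ⟨h7, h8, by linarith, by linarith, by linarith, by linarith⟩

private theorem phb_mvt {m s t : ℝ} (hm : 0 ≤ m) (hs : 20 ≤ s) (hst : s < t) :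
    ∃ ξ, s < ξ ∧ ξ < t ∧ Ph m t - Ph m s = slp m ξ * (t - s) := by
  obtain ⟨ξ, hξ, h⟩ := exists_hasDerivAt_eq_slope (Ph m) (slp m) hst
    (fun x hx => (ph_deriv hm (phb_e (hs.trans hx.1))).continuousAt.continuousWithinAt)
    (fun x hx => ph_deriv hm (phb_e (hs.trans hx.1.le)))
  refine ⟨ξ, hξ.1, hξ.2, ?_⟩
  rw [h, div_mul_cancel₀ _ (by linarith)]

theorem slp_range (C₁ : ℝ) (hC₁ : 0 ≤ C₁) : ∃ T₀ : ℝ, 20 ≤ T₀ ∧ ∀ T : ℝ, T₀ ≤ T → ∀ m t : ℝ, 0 ≤ m →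
    m ≤ C₁ * (T * Real.log T) → T ≤ t → t ≤ 2 * T → 1 / 2 ≤ slp m t ∧ slp m t ≤ 1 := by
  obtain ⟨C₂, T₀, hC₂, hT₀, h⟩ := phb_basic C₁ hC₁
  refine ⟨T₀, hT₀, fun T hTT m t hm hm1 ht ht1 => ?_⟩
  obtain ⟨h1, h2⟩ := h T hTT
  obtain ⟨h3, h4, h5, h6, h7, h8⟩ := h2 m t hm hm1 ht ht1
  rw [phb_slp hm (by linarith)]
  have h9 : 0 < Real.log (Ph m t / (2 * Real.pi)) := by linarith
  constructor
  · rw [le_div_iff₀ h9]
    linarith
  · rw [div_le_one h9]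
    exact h6

theorem slp_lip (C₁ : ℝ) (hC₁ : 0 ≤ C₁) : ∃ T₀ : ℝ, 20 ≤ T₀ ∧ ∀ T : ℝ, T₀ ≤ T → ∀ m t t' : ℝ, 0 ≤ m →
    m ≤ C₁ * (T * Real.log T) → T ≤ t → t ≤ 2 * T → T ≤ t' → t' ≤ 2 * T → |slp m t - slp m t'| ≤ |t - t'| / T := by
  obtain ⟨C₂, T₀, hC₂, hT₀, h⟩ := phb_basic C₁ hC₁
  obtain ⟨T₁, hT₁, hr⟩ := slp_range C₁ hC₁
  refine ⟨max T₀ T₁, hT₀.trans (le_max_left _ _), ?_⟩
  have key : ∀ T : ℝ, max T₀ T₁ ≤ T → ∀ m t t' : ℝ, 0 ≤ m → m ≤ C₁ * (T * Real.log T) → T ≤ t → t ≤ 2 * T →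
      T ≤ t' → t' ≤ 2 * T → t ≤ t' → |slp m t - slp m t'| ≤ |t - t'| / T := by
    intro T hTT m t t' hm hm1 ht ht1 ht' ht1' htt
    have hT0 : T₀ ≤ T := (le_max_left _ _).trans hTT
    have hT1 : T₁ ≤ T := (le_max_right _ _).trans hTT
    have hT20 : 20 ≤ T := hT₀.trans hT0
    obtain ⟨h1, h2⟩ := h T hT0
    obtain ⟨h3, h4, h5, h6, h7, h8⟩ := h2 m t hm hm1 ht ht1
    obtain ⟨h3', h4', h5', h6', h7', h8'⟩ := h2 m t' hm hm1 ht' ht1'
    rcases htt.eq_or_lt with heq | hlt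
    · rw [heq, sub_self, sub_self, abs_zero, zero_div]
    have hPP : Ph m t ≤ Ph m t' := ph_mono hm (phb_e (by linarith)) htt
    have hP1 : Ph m t' - Ph m t ≤ t' - t := by
      obtain ⟨ξ, hξ1, hξ2, hξ⟩ := phb_mvt hm (hT20.trans ht) hlt
      rw [hξ]
      have h9 := (hr T hT1 m ξ hm hm1 (by linarith) (by linarith)).2
      nlinarith
    have ht0 : 0 < t := by linarith
    have hP0 : 0 < Ph m t := by linarith
    have u1 := phb_log_up ht0 htt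
    have u2 := phb_log_lo ht0 htt
    have v1 := phb_log_up hP0 hPP
    have v2 := phb_log_lo hP0 hPP
    have u3 : (t' - t) / t ≤ (t' - t) / T := div_le_div_of_nonneg_left (by linarith) (by linarith) ht
    have v3 : (Ph m t' - Ph m t) / Ph m t ≤ (t' - t) / T :=
      div_le_div₀ (by linarith) hP1 (by linarith) (by linarith)
    have u4 : 0 ≤ (t' - t) / t' := div_nonneg (by linarith) (by linarith)
    have v4 : 0 ≤ (Ph m t' - Ph m t) / Ph m t' := div_nonneg (by linarith) (by linarith)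
    rw [phb_slp hm (by linarith), phb_slp hm (by linarith)]
    obtain ⟨a, ha⟩ : ∃ a, a = Real.log (t / (2 * Real.pi)) := ⟨_, rfl⟩
    obtain ⟨a', ha'⟩ : ∃ a', a' = Real.log (t' / (2 * Real.pi)) := ⟨_, rfl⟩
    obtain ⟨b, hb⟩ : ∃ b, b = Real.log (Ph m t / (2 * Real.pi)) := ⟨_, rfl⟩
    obtain ⟨b', hb'⟩ : ∃ b', b' = Real.log (Ph m t' / (2 * Real.pi)) := ⟨_, rfl⟩
    obtain ⟨δ, hδ⟩ : ∃ δ, δ = (t' - t) / T := ⟨_, rfl⟩
    have hab : |t - t'| / T = δ := by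
      rw [hδ, abs_sub_comm, abs_of_nonneg (by linarith)]
    rw [hab]
    rw [← ha] at h5 h6 u1 u2 ⊢
    rw [← ha'] at h5' h6' u1 u2 ⊢
    rw [← hb] at h6 v1 v2 ⊢
    rw [← hb'] at h6' v1 v2 ⊢
    rw [← hδ] at u3 v3
    have hb0 : 0 < b := by linarith
    have hb0' : 1 ≤ b' := by linarith
    have e1 : a / b - a' / b' = (a * (b' - b) - (a' - a) * b) / (b * b') := by
      rw [div_sub_div _ _ hb0.ne' (by linarith)]
      congr 1
      ring
    have hδ0 : 0 ≤ δ := by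
      rw [hδ]
      exact div_nonneg (by linarith) (by linarith)
    have x1 : 0 ≤ a * (b' - b) := mul_nonneg (by linarith) (by linarith)
    have x2 : a * (b' - b) ≤ b * δ := mul_le_mul h6 (by linarith) (by linarith) hb0.le
    have x3 : 0 ≤ (a' - a) * b := mul_nonneg (by linarith) hb0.le
    have x4 : (a' - a) * b ≤ δ * b := mul_le_mul_of_nonneg_right (by linarith) hb0.le
    have x5 : |a * (b' - b) - (a' - a) * b| ≤ b * δ := by
      rw [abs_le]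
      constructor <;> linarith
    rw [e1, abs_div, abs_of_pos (mul_pos hb0 (by linarith : (0 : ℝ) < b')),
      div_le_iff₀ (mul_pos hb0 (by linarith : (0 : ℝ) < b'))]
    refine x5.trans ?_
    have x6 : 0 ≤ b * δ := mul_nonneg hb0.le hδ0
    calc b * δ ≤ b * δ * b' := le_mul_of_one_le_right x6 hb0'
      _ = δ * (b * b') := by ring
  intro T hTT m t t' hm hm1 ht ht1 ht' ht1'
  rcases le_total t t' with h9 | h9
  · exact key T hTT m t t' hm hm1 ht ht1 ht' ht1' h9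
  · rw [abs_sub_comm, abs_sub_comm t t']
    exact key T hTT m t' t hm hm1 ht' ht1' ht ht1 h9

theorem ph_lin (C₁ : ℝ) (hC₁ : 0 ≤ C₁) : ∃ T₀ : ℝ, 20 ≤ T₀ ∧ ∀ T : ℝ, T₀ ≤ T → ∀ m a t : ℝ, 0 ≤ m →
    m ≤ C₁ * (T * Real.log T) → T ≤ a → a ≤ 2 * T → T ≤ t → t ≤ 2 * T →
      |Ph m t - (Ph m a + slp m a * (t - a))| ≤ (t - a) ^ 2 / T := by
  obtain ⟨T₀, hT₀, h⟩ := slp_lip C₁ hC₁
  refine ⟨T₀, hT₀, fun T hTT m a t hm hm1 ha ha1 ht ht1 => ?_⟩
  have hT0 : 0 < T := by linarith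
  rcases lt_trichotomy a t with h1 | h1 | h1
  · obtain ⟨ξ, hξ1, hξ2, hξ⟩ := phb_mvt hm (by linarith : (20 : ℝ) ≤ a) h1
    have h2 := h T hTT m ξ a hm hm1 (by linarith) (by linarith) ha ha1
    have e1 : Ph m t - (Ph m a + slp m a * (t - a)) = (slp m ξ - slp m a) * (t - a) := by
      linear_combination hξ
    rw [e1, abs_mul, abs_of_pos (by linarith : 0 < t - a)]
    rw [abs_of_pos (by linarith : 0 < ξ - a)] at h2
    have h3 : (ξ - a) / T ≤ (t - a) / T := div_le_div_of_nonneg_right (by linarith) hT0.le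
    calc |slp m ξ - slp m a| * (t - a) ≤ (t - a) / T * (t - a) :=
          mul_le_mul_of_nonneg_right (h2.trans h3) (by linarith)
      _ = (t - a) ^ 2 / T := by ring
  · subst h1
    simp
  · obtain ⟨ξ, hξ1, hξ2, hξ⟩ := phb_mvt hm (by linarith : (20 : ℝ) ≤ t) h1
    have h2 := h T hTT m ξ a hm hm1 (by linarith) (by linarith) ha ha1
    have e1 : Ph m t - (Ph m a + slp m a * (t - a)) = -((slp m ξ - slp m a) * (a - t)) := by
      linear_combination -hξ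
    rw [e1, abs_neg, abs_mul, abs_of_pos (by linarith : 0 < a - t)]
    rw [abs_sub_comm ξ a, abs_of_pos (by linarith : 0 < a - ξ)] at h2
    have h3 : (a - ξ) / T ≤ (a - t) / T := div_le_div_of_nonneg_right (by linarith) hT0.le
    calc |slp m ξ - slp m a| * (a - t) ≤ (a - t) / T * (a - t) :=
          mul_le_mul_of_nonneg_right (h2.trans h3) (by linarith)
      _ = (t - a) ^ 2 / T := by ring

theorem ph_gap (C₁ : ℝ) (hC₁ : 0 ≤ C₁) : ∃ T₀ : ℝ, 20 ≤ T₀ ∧ ∀ T : ℝ, T₀ ≤ T → ∀ m m' t : ℝ, 0 ≤ m → m ≤ m' →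
    m' ≤ C₁ * (T * Real.log T) → T ≤ t → t ≤ 2 * T →
      2 / 3 * (hT T * (m' - m)) ≤ Ph m' t - Ph m t ∧ Ph m' t - Ph m t ≤ 2 * (hT T * (m' - m)) := by
  obtain ⟨C₂, T₀, hC₂, hT₀, h⟩ := phb_basic C₁ hC₁
  obtain ⟨C, T₁, hC, hT₁, hL⟩ := LL_h C₂ (by linarith)
  refine ⟨max (max T₀ T₁) (Real.exp (2 * C)), hT₀.trans ((le_max_left _ _).trans (le_max_left _ _)),
    fun T hTT m m' t hm hmm hm1 ht ht1 => ?_⟩
  have hT0 : T₀ ≤ T := ((le_max_left _ _).trans (le_max_left _ _)).trans hTT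
  have hT1 : T₁ ≤ T := ((le_max_right _ _).trans (le_max_left _ _)).trans hTT
  have hTe : Real.exp (2 * C) ≤ T := (le_max_right _ _).trans hTT
  have hT20 : 20 ≤ T := hT₀.trans hT0
  have hm' : 0 ≤ m' := hm.trans hmm
  obtain ⟨h1, h2⟩ := h T hT0
  obtain ⟨h3, h4, -, -, -, -⟩ := h2 m t hm (hmm.trans hm1) ht ht1
  obtain ⟨h3', h4', -, -, -, -⟩ := h2 m' t hm' hm1 ht ht1
  have hPP : Ph m t ≤ Ph m' t := ph_mono_m hm (phb_e (by linarith)) hmm
  have h5 := hL T hT1 (Ph m t) (Ph m' t) (by linarith) hPP h4'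
  rw [LL_ph hm (phb_e (by linarith)), LL_ph hm' (phb_e (by linarith))] at h5
  have e1 : LL t + m' - (LL t + m) = m' - m := by ring
  rw [e1] at h5
  have h6 : 2 * C ≤ Real.log T := (Real.le_log_iff_exp_le (by linarith)).2 hTe
  have h7 : C / Real.log T ≤ 1 / 2 := by
    rw [div_le_iff₀ (by linarith)]
    linarith
  have h8 : C / Real.log T * (Ph m' t - Ph m t) ≤ 1 / 2 * (Ph m' t - Ph m t) :=
    mul_le_mul_of_nonneg_right h7 (by linarith)
  have h9 := abs_le.1 (h5.trans h8)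
  constructor
  · linarith [h9.2]
  · linarith [h9.1]

theorem slp_diff (C₁ : ℝ) (hC₁ : 0 ≤ C₁) : ∃ T₀ : ℝ, 20 ≤ T₀ ∧ ∀ T : ℝ, T₀ ≤ T → ∀ m m' t : ℝ, 0 ≤ m → m ≤ m' →
    m' ≤ C₁ * (T * Real.log T) → T ≤ t → t ≤ 2 * T → |slp m t - slp m' t| ≤ (m' - m) / T := by
  obtain ⟨C₂, T₀, hC₂, hT₀, h⟩ := phb_basic C₁ hC₁
  obtain ⟨T₁, hT₁, hg⟩ := ph_gap C₁ hC₁
  refine ⟨max T₀ T₁, hT₀.trans (le_max_left _ _), fun T hTT m m' t hm hmm hm1 ht ht1 => ?_⟩
  have hT0 : T₀ ≤ T := (le_max_left _ _).trans hTT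
  have hT1 : T₁ ≤ T := (le_max_right _ _).trans hTT
  have hT20 : 20 ≤ T := hT₀.trans hT0
  have hm' : 0 ≤ m' := hm.trans hmm
  obtain ⟨h1, h2⟩ := h T hT0
  obtain ⟨h3, h4, h5, h6, h7, h8⟩ := h2 m t hm (hmm.trans hm1) ht ht1
  obtain ⟨h3', h4', h5', h6', h7', h8'⟩ := h2 m' t hm' hm1 ht ht1
  have hPP : Ph m t ≤ Ph m' t := ph_mono_m hm (phb_e (by linarith)) hmm
  have hP0 : 0 < Ph m t := by linarith
  have v1 := phb_log_up hP0 hPP
  have v2 := phb_log_lo hP0 hPP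
  have v4 : 0 ≤ (Ph m' t - Ph m t) / Ph m' t := div_nonneg (by linarith) (by linarith)
  have hg2 := (hg T hT1 m m' t hm hmm hm1 ht ht1).2
  have hh : 2 * hT T ≤ 1 := by
    unfold Pool.Agent.Lib.MP_ec260d_ntB.hT
    have h9 : Real.pi < 3.15 := Real.pi_lt_d2
    rw [← mul_div_assoc, div_le_one (by linarith)]
    linarith
  have v5 : Ph m' t - Ph m t ≤ m' - m := by
    have h9 : 2 * hT T * (m' - m) ≤ 1 * (m' - m) := mul_le_mul_of_nonneg_right hh (by linarith)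
    linarith
  have v6 : (Ph m' t - Ph m t) / Ph m t ≤ (m' - m) / T :=
    div_le_div₀ (by linarith) v5 (by linarith) (by linarith)
  rw [phb_slp hm (by linarith), phb_slp hm' (by linarith)]
  obtain ⟨a, ha⟩ : ∃ a, a = Real.log (t / (2 * Real.pi)) := ⟨_, rfl⟩
  obtain ⟨b, hb⟩ : ∃ b, b = Real.log (Ph m t / (2 * Real.pi)) := ⟨_, rfl⟩
  obtain ⟨b', hb'⟩ : ∃ b', b' = Real.log (Ph m' t / (2 * Real.pi)) := ⟨_, rfl⟩
  rw [← ha] at h5 h6 h6' ⊢
  rw [← hb] at h6 v1 v2 ⊢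
  rw [← hb'] at h6' v1 v2 ⊢
  have hb0 : 0 < b := by linarith
  have hb0' : 1 ≤ b' := by linarith
  have e1 : a / b - a / b' = a * (b' - b) / (b * b') := by
    rw [div_sub_div _ _ hb0.ne' (by linarith)]
    congr 1
    ring
  have x1 : 0 ≤ a * (b' - b) := mul_nonneg (by linarith) (by linarith)
  rw [e1, abs_of_nonneg (div_nonneg x1 (mul_nonneg hb0.le (by linarith)))]
  have x2 : a * (b' - b) / (b * b') ≤ b' - b := by
    rw [div_le_iff₀ (mul_pos hb0 (by linarith : (0 : ℝ) < b'))]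
    have x3 : a * (b' - b) ≤ b * (b' - b) := mul_le_mul_of_nonneg_right h6 (by linarith)
    have x4 : b * (b' - b) ≤ b * (b' - b) * b' :=
      le_mul_of_one_le_right (mul_nonneg hb0.le (by linarith)) hb0'
    calc a * (b' - b) ≤ b * (b' - b) * b' := x3.trans x4
      _ = (b' - b) * (b * b') := by ring
  linarith

theorem u_decr (C₁ : ℝ) (hC₁ : 0 ≤ C₁) : ∃ c T₀ : ℝ, 0 < c ∧ 20 ≤ T₀ ∧ ∀ T : ℝ, T₀ ≤ T → ∀ m m' t t' : ℝ, 0 ≤ m →
    m ≤ m' → m' ≤ C₁ * (T * Real.log T) → T ≤ t → t ≤ t' → t' ≤ 2 * T →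
      c * (Ph m' t' - Ph m t') / (T * Real.log T) * (t' - t) ≤ (Ph m' t - Ph m t) - (Ph m' t' - Ph m t') := by
  obtain ⟨C₂, T₀, hC₂, hT₀, h⟩ := phb_basic C₁ hC₁
  refine ⟨1 / (8 * C₂), T₀, by positivity, hT₀, fun T hTT m m' t t' hm hmm hm1 ht htt ht1 => ?_⟩
  have hT20 : 20 ≤ T := hT₀.trans hTT
  have hm' : 0 ≤ m' := hm.trans hmm
  obtain ⟨h1, h2⟩ := h T hTT
  -- the difference of the slopes
  have hs : ∀ s, T ≤ s → s ≤ 2 * T → 0 ≤ Ph m' s - Ph m s ∧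
      1 / (8 * C₂) * (Ph m' s - Ph m s) / (T * Real.log T) ≤ slp m s - slp m' s := by
    intro s hs1 hs2
    obtain ⟨h3, h4, h5, h6, h7, h8⟩ := h2 m s hm (hmm.trans hm1) hs1 hs2
    obtain ⟨h3', h4', h5', h6', h7', h8'⟩ := h2 m' s hm' hm1 hs1 hs2
    have hPP : Ph m s ≤ Ph m' s := ph_mono_m hm (phb_e (by linarith)) hmm
    refine ⟨by linarith, ?_⟩
    have hP0 : 0 < Ph m s := by linarith
    have hP0' : 0 < Ph m' s := by linarith
    have v2 := phb_log_lo hP0 hPP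
    have v3 : (Ph m' s - Ph m s) / (C₂ * T) ≤ (Ph m' s - Ph m s) / Ph m' s :=
      div_le_div_of_nonneg_left (by linarith) hP0' h4'
    rw [phb_slp hm (by linarith), phb_slp hm' (by linarith)]
    obtain ⟨a, ha⟩ : ∃ a, a = Real.log (s / (2 * Real.pi)) := ⟨_, rfl⟩
    obtain ⟨b, hb⟩ : ∃ b, b = Real.log (Ph m s / (2 * Real.pi)) := ⟨_, rfl⟩
    obtain ⟨b', hb'⟩ : ∃ b', b' = Real.log (Ph m' s / (2 * Real.pi)) := ⟨_, rfl⟩
    obtain ⟨L, hL⟩ : ∃ L, L = Real.log T := ⟨_, rfl⟩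
    obtain ⟨u, hu⟩ : ∃ u, u = Ph m' s - Ph m s := ⟨_, rfl⟩
    rw [← ha] at h5 h6 h6' ⊢
    rw [← hb] at h6 h8 v2 ⊢
    rw [← hb'] at h6' h8' v2 ⊢
    rw [← hL] at h1 h5 h8 h8' ⊢
    rw [← hu] at v2 v3 ⊢
    have hu0 : 0 ≤ u := by
      rw [hu]
      linarith
    have hb0 : 0 < b := by linarith
    have hb0' : 0 < b' := by linarith
    have hT0 : 0 < T := by linarith
    have hC0 : 0 < C₂ := by linarith
    have hL0 : 0 < L := by linarith
    have e1 : a / b - a / b' = a / (b * b') * (b' - b) := by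
      rw [div_sub_div _ _ hb0.ne' hb0'.ne', div_mul_eq_mul_div]
      congr 1
      ring
    rw [e1]
    have x1 : 1 / (8 * L) ≤ a / (b * b') := by
      rw [div_le_div_iff₀ (by positivity) (by positivity)]
      have x2 : b * b' ≤ (2 * L) * (2 * L) := mul_le_mul h8 h8' hb0'.le (by linarith)
      nlinarith
    have x2 : u / (C₂ * T) ≤ b' - b := v3.trans v2
    have x3 : 0 ≤ u / (C₂ * T) := by positivity
    calc 1 / (8 * C₂) * u / (T * L) = 1 / (8 * L) * (u / (C₂ * T)) := by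
          field_simp
      _ ≤ a / (b * b') * (b' - b) := mul_le_mul x1 x2 x3 (le_trans (by positivity) x1)
  -- differences of u
  have hd : ∀ s s', T ≤ s → s ≤ s' → s' ≤ 2 * T → ∃ ξ, s ≤ ξ ∧ ξ ≤ s' ∧
      (Ph m' s - Ph m s) - (Ph m' s' - Ph m s') = (slp m ξ - slp m' ξ) * (s' - s) := by
    intro s s' hs1 hss hs2
    rcases hss.eq_or_lt with heq | hlt
    · subst heq
      exact ⟨s, le_rfl, le_rfl, by ring⟩
    · obtain ⟨ξ, hξ, hξ2⟩ := exists_hasDerivAt_eq_slope (fun x => Ph m' x - Ph m x)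
        (fun x => slp m' x - slp m x) hlt
        (fun x hx => ((ph_deriv hm' (phb_e (by linarith [hx.1]))).sub
          (ph_deriv hm (phb_e (by linarith [hx.1])))).continuousAt.continuousWithinAt)
        (fun x hx => (ph_deriv hm' (phb_e (by linarith [hx.1]))).sub
          (ph_deriv hm (phb_e (by linarith [hx.1]))))
      refine ⟨ξ, hξ.1.le, hξ.2.le, ?_⟩
      have h3 : s' - s ≠ 0 := by
        intro h4
        linarith
      have h4 : (slp m' ξ - slp m ξ) * (s' - s) = Ph m' s' - Ph m s' - (Ph m' s - Ph m s) := by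
        rw [hξ2, div_mul_cancel₀ _ h3]
      linarith
  have hTL : 0 < T * Real.log T := mul_pos (by linarith) (by linarith)
  have hc : 0 < 1 / (8 * C₂) := by positivity
  obtain ⟨ξ, hξ1, hξ2, hξ⟩ := hd t t' ht htt ht1
  obtain ⟨hξ3, hξ4⟩ := hs ξ (by linarith) (by linarith)
  have hmono : Ph m' t' - Ph m t' ≤ Ph m' ξ - Ph m ξ := by
    obtain ⟨η, hη1, hη2, hη⟩ := hd ξ t' (by linarith) hξ2 ht1
    obtain ⟨hη3, hη4⟩ := hs η (by linarith) (by linarith)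
    have h5 : 0 ≤ slp m η - slp m' η := le_trans (by positivity) hη4
    have h6 : 0 ≤ (slp m η - slp m' η) * (t' - ξ) := mul_nonneg h5 (by linarith)
    linarith
  rw [hξ]
  refine mul_le_mul_of_nonneg_right ?_ (by linarith)
  refine le_trans ?_ hξ4
  exact div_le_div_of_nonneg_right (mul_le_mul_of_nonneg_left hmono hc.le) hTL.le

theorem ph_const (C₂ : ℝ) (hC₂ : 1 ≤ C₂) : ∃ C T₀ : ℝ, 0 ≤ C ∧ 20 ≤ T₀ ∧ ∀ T : ℝ, T₀ ≤ T → ∀ m t : ℝ, 0 ≤ m →
    m ≤ 2 * Real.log T → T ≤ t → t ≤ C₂ * T → |Ph m t - t - hT T * m| ≤ C * hT T := by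
  obtain ⟨C₃, T₁, hC₃, hT₁, hp⟩ := ph_le_C 1 zero_le_one
  obtain ⟨C, T₂, hC, hT₂, hL⟩ := LL_h (C₃ * C₂) (by nlinarith)
  refine ⟨4 * C, max (max T₁ T₂) (Real.exp (2 * C + 16)), by linarith,
    hT₁.trans ((le_max_left _ _).trans (le_max_left _ _)), fun T hTT m t hm hm1 ht ht1 => ?_⟩
  have hT1 : T₁ ≤ T := ((le_max_left _ _).trans (le_max_left _ _)).trans hTT
  have hT2 : T₂ ≤ T := ((le_max_right _ _).trans (le_max_left _ _)).trans hTT
  have hTe : Real.exp (2 * C + 16) ≤ T := (le_max_right _ _).trans hTT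
  have hT20 : 20 ≤ T := hT₁.trans hT1
  have h6 : 2 * C + 16 ≤ Real.log T := (Real.le_log_iff_exp_le (by linarith)).2 hTe
  have hL0 : 0 < Real.log T := by linarith
  have hlog : Real.log T ≤ Real.log t := Real.log_le_log (by linarith) ht
  have hm2 : m ≤ 1 * (t * Real.log t) := by
    have h7 : 2 * Real.log T ≤ t * Real.log t := mul_le_mul (by linarith) hlog hL0.le (by linarith)
    linarith
  have h7 := hp t (hT1.trans ht) m t hm hm2 le_rfl (by linarith)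
  have h8 : Ph m t ≤ C₃ * C₂ * T := by
    refine h7.trans ?_
    rw [mul_assoc]
    exact mul_le_mul_of_nonneg_left ht1 (by linarith)
  have h9 := ph_ge hm (phb_e (by linarith : (20 : ℝ) ≤ t))
  have h10 := hL T hT2 t (Ph m t) ht h9 h8
  rw [LL_ph hm (phb_e (by linarith : (20 : ℝ) ≤ t)), add_sub_cancel_left] at h10
  have hh : 0 < hT T := by
    unfold Pool.Agent.Lib.MP_ec260d_ntB.hT
    positivity
  have h11 : C / Real.log T ≤ 1 / 2 := by
    rw [div_le_iff₀ hL0]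
    linarith
  have hC0 : 0 ≤ C / Real.log T := div_nonneg hC hL0.le
  have h12 : Ph m t - t ≤ 2 * (hT T * m) := by
    have h13 : C / Real.log T * (Ph m t - t) ≤ 1 / 2 * (Ph m t - t) :=
      mul_le_mul_of_nonneg_right h11 (by linarith)
    have h14 := abs_le.1 (h10.trans h13)
    linarith [h14.1]
  rw [abs_sub_comm] at h10
  refine h10.trans ?_
  have h13 : C / Real.log T * (Ph m t - t) ≤ C / Real.log T * (2 * (hT T * (2 * Real.log T))) := by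
    refine mul_le_mul_of_nonneg_left (h12.trans ?_) hC0
    exact mul_le_mul_of_nonneg_left (mul_le_mul_of_nonneg_left hm1 hh.le) (by norm_num)
  refine h13.trans (le_of_eq ?_)
  field_simp
  ring

end Pool.Agent.Lib.MP_ec260d_ntD
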