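import Mathlib
import Pool.Agent.Lib.MP_ec260d_ntD.P.PhB

/-!
# JOB P/ULip: the distance `u(t) = Ph m' t - Ph m t` varies slowly (about 120 lines)

Write `ω(t) = log (t/(2π))`, `ω = ω(Ph m t)`, `ω' = ω(Ph m' t)`. `u` has the derivative `slp m' t - slp m t = ω(t) (1/ω' - 1/ω) = - ω(t) (ω' - ω)/(ω ω')` (`ph_deriv`, `om_ph`, definition of `slp`), and
`0 ≤ ω' - ω = log (Ph m' t/Ph m t) ≤ (Ph m' t - Ph m t)/Ph m t ≤ u(t)/T` (`Real.log_le_sub_one_of_pos`, `Ph m t ≥ t ≥ T`: `ph_ge`), `ω(t) ≤ ω` (`ph_ge`), `ω' ≥ ω(t) ≥ (log T)/2` for large `T`. So `0 ≤ - u'(t) ≤ u(t)/(T ω') ≤ 2 u(t)/(T log T)` on `[T, 2T]`.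
By `ph_gap` `u(ξ) ≤ 2 hT T (m' - m) ≤ 3 u(t')` for all `ξ, t'` in `[T, 2T]`. Mean value theorem on `[t, t']`: `u(t) - u(t') ≤ 6 u(t')/(T log T) (t' - t)`.
-/

namespace Pool.Agent.Lib.MP_ec260d_ntD

open Real Set
open Pool.Agent.Lib.MP_ec260d_ntB (LL hT)

theorem u_lip (C₁ : ℝ) (hC₁ : 0 ≤ C₁) : ∃ C T₀ : ℝ, 0 ≤ C ∧ 20 ≤ T₀ ∧ ∀ T : ℝ, T₀ ≤ T → ∀ m m' t t' : ℝ, 0 ≤ m →
    m ≤ m' → m' ≤ C₁ * (T * Real.log T) → T ≤ t → t ≤ t' → t' ≤ 2 * T →
      (Ph m' t - Ph m t) - (Ph m' t' - Ph m t') ≤ C * (Ph m' t' - Ph m t') / (T * Real.log T) * (t' - t) := by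
  obtain ⟨T₁, hT₁, hgap⟩ := ph_gap C₁ hC₁
  refine ⟨6, max T₁ 40, by norm_num, le_trans hT₁ (le_max_left _ _), ?_⟩
  intro T hT m m' t t' hm hmm hm' htT htt ht2
  have hTT1 : T₁ ≤ T := le_trans (le_max_left _ _) hT
  have hT40 : 40 ≤ T := le_trans (le_max_right _ _) hT
  have hT0 : 0 < T := by linarith
  have hm0 : 0 ≤ m' := hm.trans hmm
  have hmC : m ≤ C₁ * (T * Real.log T) := hmm.trans hm'
  have hπ := Real.pi_pos
  have hπ3 : Real.pi < 3.15 := Real.pi_lt_d2
  have he := Real.exp_one_lt_d9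
  have he0 := Real.exp_pos 1
  have h2πe : 2 * Real.pi * Real.exp 1 ≤ T := by nlinarith
  have hlogT : 0 < Real.log T := Real.log_pos (by linarith)
  have hlog2π : Real.log (2 * Real.pi) ≤ Real.log T / 2 := by
    have h1 : Real.log ((2 * Real.pi) ^ 2) ≤ Real.log T := Real.log_le_log (by positivity) (by nlinarith)
    rw [Real.log_pow] at h1
    push_cast at h1
    linarith
  have key : ∀ x : ℝ, T ≤ x → x ≤ 2 * T →
      slp m x - slp m' x ≤ 2 * (Ph m' x - Ph m x) / (T * Real.log T) := by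
    intro x hx1 hx2
    have hx : 2 * Real.pi * Real.exp 1 ≤ x := h2πe.trans hx1
    have hx0 : 0 < x := by linarith
    have e1 := om_ph hm hx
    have e2 := om_ph hm0 hx
    have g1 : x ≤ Ph m x := ph_ge hm hx
    have g2 : Ph m x ≤ Ph m' x := ph_mono_m hm hx hmm
    have g0 : 0 < Ph m x := by linarith
    have g0' : 0 < Ph m' x := by linarith
    have h2π : (0 : ℝ) < 2 * Real.pi := by positivity
    have w0 : Real.log T / 2 ≤ Real.log (x / (2 * Real.pi)) := by
      rw [Real.log_div hx0.ne' h2π.ne']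
      have := Real.log_le_log hT0 hx1
      linarith
    have w1 : Real.log (x / (2 * Real.pi)) ≤ Real.log (Ph m x / (2 * Real.pi)) :=
      Real.log_le_log (by positivity) (div_le_div_of_nonneg_right g1 h2π.le)
    have w2 : Real.log (Ph m x / (2 * Real.pi)) ≤ Real.log (Ph m' x / (2 * Real.pi)) :=
      Real.log_le_log (by positivity) (div_le_div_of_nonneg_right g2 h2π.le)
    have w3 : Real.log (Ph m' x / (2 * Real.pi)) - Real.log (Ph m x / (2 * Real.pi)) ≤
        (Ph m' x - Ph m x) / T := by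
      rw [Real.log_div g0'.ne' h2π.ne', Real.log_div g0.ne' h2π.ne']
      have h1 : Real.log (Ph m' x / Ph m x) ≤ Ph m' x / Ph m x - 1 :=
        Real.log_le_sub_one_of_pos (div_pos g0' g0)
      rw [Real.log_div g0'.ne' g0.ne'] at h1
      have h2 : Ph m' x / Ph m x - 1 = (Ph m' x - Ph m x) / Ph m x := by
        field_simp
      have h3 : (Ph m' x - Ph m x) / Ph m x ≤ (Ph m' x - Ph m x) / T :=
        div_le_div_of_nonneg_left (by linarith) hT0 (by linarith)
      linarith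
    unfold slp
    rw [← e1, ← e2]
    set a := Real.log (x / (2 * Real.pi)) with ha
    set b := Real.log (Ph m x / (2 * Real.pi)) with hb
    set c := Real.log (Ph m' x / (2 * Real.pi)) with hc
    have ha0 : 0 < a := by linarith
    have hb0 : 0 < b := by linarith
    have hc0 : 0 < c := by linarith
    have e3 : a / b - a / c = (a / b) * ((c - b) / c) := by
      field_simp
    have h4 : a / b ≤ 1 := (div_le_one hb0).2 w1
    have h5 : (c - b) / c ≤ ((Ph m' x - Ph m x) / T) / (Real.log T / 2) :=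
      div_le_div₀ (div_nonneg (by linarith) hT0.le) w3 (by positivity) (by linarith)
    have h6 : 0 ≤ (c - b) / c := div_nonneg (by linarith) hc0.le
    have e7 : ((Ph m' x - Ph m x) / T) / (Real.log T / 2) = 2 * (Ph m' x - Ph m x) / (T * Real.log T) := by
      field_simp
    rw [e3, ← e7]
    calc a / b * ((c - b) / c) ≤ 1 * ((c - b) / c) := mul_le_mul_of_nonneg_right h4 h6
      _ ≤ _ := by rw [one_mul]; exact h5
  have hder : ∀ x : ℝ, T ≤ x → HasDerivAt (fun y => Ph m' y - Ph m y) (slp m' x - slp m x) x := by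
    intro x hx
    exact (ph_deriv hm0 (h2πe.trans hx)).sub (ph_deriv hm (h2πe.trans hx))
  have hKpos : 0 < T * Real.log T := by positivity
  have hconv : Convex ℝ (Icc t t') := convex_Icc t t'
  have hmv := hconv.mul_sub_le_image_sub_of_le_deriv (f := fun y => Ph m' y - Ph m y)
    (C := -(6 * (Ph m' t' - Ph m t') / (T * Real.log T)))
    (fun x hx => (hder x (htT.trans hx.1)).continuousAt.continuousWithinAt)
    (fun x hx => by
      rw [interior_Icc] at hx
      exact (hder x (htT.trans hx.1.le)).differentiableAt.differentiableWithinAt)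
    (fun x hx => by
      rw [interior_Icc] at hx
      have hx1 : T ≤ x := htT.trans hx.1.le
      have hx2 : x ≤ 2 * T := hx.2.le.trans ht2
      rw [(hder x hx1).deriv]
      have k1 := key x hx1 hx2
      have k2 := (hgap T hTT1 m m' x hm hmm hm' hx1 hx2).2
      have k3 := (hgap T hTT1 m m' t' hm hmm hm' (htT.trans htt) ht2).1
      have k4 : 2 * (Ph m' x - Ph m x) / (T * Real.log T) ≤ 6 * (Ph m' t' - Ph m t') / (T * Real.log T) :=
        div_le_div_of_nonneg_right (by linarith) hKpos.le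
      linarith)
    t (left_mem_Icc.2 htt) t' (right_mem_Icc.2 htt) htt
  have : -(6 * (Ph m' t' - Ph m t') / (T * Real.log T)) * (t' - t) =
      -(6 * (Ph m' t' - Ph m t') / (T * Real.log T) * (t' - t)) := by ring
  linarith

end Pool.Agent.Lib.MP_ec260d_ntD
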